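import Pool.Agent.H68.QC.Targets

set_option autoImplicit false

namespace Pool.Agent.H68.QCX

open Pool.Agent.H68.QC Pool.Agent.H70.RK

theorem pf_A0D : T_A0D := by
  intro V t u g hg
  generalize hq : Qst V u 0 = q at hg
  induction hg with
  | pure c a => exact ⟨.leaf a, Nat.zero_le _, fun _ => rfl⟩
  | ask c p g g0 g1 hp h0 h1 hg1 hg0 ih0 ih1 =>
    subst hq
    obtain ⟨v, hv⟩ := hp
    obtain ⟨T0, hT0, he0⟩ := ih0
    obtain ⟨T1, hT1, he1⟩ := ih1
    refine ⟨.node v T0 T1, ?_, fun y => ?_⟩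
    · show max T0.depth T1.depth + 1 ≤ c + 1
      omega
    · show cond (y v) (T1.eval y) (T0.eval y) = g y
      cases h : y v
      · rw [cond_false, he0, hg0 y (by rw [hv, h])]
      · rw [cond_true, he1, hg1 y (by rw [hv, h])]

end Pool.Agent.H68.QCX
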