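import Pool.Agent.H68.QC.Defs

/-!
# The quantum classical hierarchy relative to an oracle with Σ_k in EQP: module targets
-/

set_option autoImplicit false

namespace Pool.Agent.H68.QC

open Finset Filter Pool.Agent.H6.NB Pool.Agent.H70.OQ Pool.Agent.H70.RK Pool.Agent.H70.RC
open Pool.Agent.H70.RW (SimK)

/-! ## Part A: random sets -/

/-- CH0: a random set contains many elements of a large set. -/
def T_CH0 : Prop := ∀ (X : Type) [Fintype X] [DecidableEq X] (q : ℝ) (S : Finset X) (m : ℕ),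
  0 ≤ q → q ≤ 1 → 2 * ((m : ℝ) + 2) ≤ S.card * q →
  ∑ l : X → Bool, lw q l * ic ((S.filter fun x => l x = true).card ≤ m) ≤ 1 / 4

/-- SYL: choosing first the live children in `L` and then a hidden child among them. -/
def T_SYL : Prop := ∀ (A Z : Type) [Fintype A] [DecidableEq A] [Fintype Z] [DecidableEq Z] (q : ℝ)
  (L : A → Finset Z) (F : (A → Z) → ℝ), (∀ a, (L a).Nonempty) →
  ∑ l : A × Z → Bool, lw q l * ∑ h : A → Z, uw (LofL L l) h * F h = ∑ h : A → Z, uw L h * F h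

/-- LVL: there are many live children in every `L a`. -/
def T_LVL : Prop := ∀ (A Z : Type) [Fintype A] [DecidableEq A] [Fintype Z] [DecidableEq Z] (q : ℝ)
  (M G : ℕ) (L : A → Finset Z), 0 ≤ q → q ≤ 1 → (∀ a, G * M ≤ (L a).card) →
  ∑ l : A × Z → Bool, lw q l * ic (∃ a, ((L a).filter fun z => l (a, z) = true).card < M) ≤
    Fintype.card A * M * (1 - q) ^ G

/-! ## Part B: the steps of the induction over the levels -/

/-- GST: from level `i + 1` to level `i + 2`. -/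
def T_GST : Prop := ∀ (X : Type) (Y : ℕ → Type) [Fintype X] [DecidableEq X] [∀ i, Fintype (Y i)]
  [∀ i, DecidableEq (Y i)] [∀ i, Nonempty (Y i)] (b : Bool) (K i M M' G : ℕ) (q ρ E : ℝ)
  (C' : Cls (Node X Y (i + 1))) (C : Cls (Node X Y (i + 2))), 0 ≤ q → q ≤ 1 → 0 ≤ E → 1 ≤ M →
  1 ≤ M' → G * M ≤ Fintype.card (Y i) → TabB X Y b K i M C' E →
  (∀ (L : Node X Y (i + 1) → Finset (Y (i + 1))) (V1 V0 : (Node X Y (i + 2) → Bool) → Prop), C V1 V0 →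
    (∀ a, M' ≤ (L a).card) →
    ∑ h : Node X Y (i + 1) → Y (i + 1), ∑ l : Node X Y (i + 1) → Bool, uw L h * lw q l *
      ic (¬ RedC (A := Node X Y (i + 1)) (Z := Y (i + 1)) C' V1 V0 h l) ≤ ρ) →
  TabB X Y b K (i + 1) M' C (ρ + Fintype.card (Node X Y i) * M * (1 - q) ^ G + E)

/-- GS0: from level `0` to level `1`. -/
def T_GS0 : Prop := ∀ (X : Type) (Y : ℕ → Type) [Fintype X] [DecidableEq X] [∀ i, Fintype (Y i)]
  [∀ i, DecidableEq (Y i)] (b : Bool) (K m M' : ℕ) (q ρ : ℝ)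
  (C' : Cls (Node X Y 0)) (C : Cls (Node X Y 1)), 0 ≤ q → q ≤ 1 → 1 ≤ M' →
  2 * ((m : ℝ) + 2) ≤ K * q →
  (∀ V1' V0' : (Node X Y 0 → Bool) → Prop, C' V1' V0' → ¬ Bad b m 0 V1' V0' (() : Hid X Y 0)) →
  (∀ (L : Node X Y 0 → Finset (Y 0)) (V1 V0 : (Node X Y 1 → Bool) → Prop), C V1 V0 →
    (∀ a, M' ≤ (L a).card) → ∑ h : Node X Y 0 → Y 0, ∑ l : Node X Y 0 → Bool, uw L h * lw q l *
      ic (¬ RedC (A := Node X Y 0) (Z := Y 0) C' V1 V0 h l) ≤ ρ) →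
  TabB X Y b K 0 M' C (2 * ρ)

/-- GSL: a restriction at the same level. -/
def T_GSL : Prop := ∀ (X : Type) (Y : ℕ → Type) [Fintype X] [DecidableEq X] [∀ i, Fintype (Y i)]
  [∀ i, DecidableEq (Y i)] (b : Bool) (K i M M' G : ℕ) (q ρ E : ℝ)
  (C' C : Cls (Node X Y (i + 1))), 0 ≤ q → q ≤ 1 → 0 ≤ E → 1 ≤ M → 1 ≤ M' → G * M ≤ M' →
  TabB X Y b K i M C' E →
  (∀ V1 V0 : (Node X Y (i + 1) → Bool) → Prop, C V1 V0 →
    ∑ l : Node X Y i × Y i → Bool, lw q l * ic (¬ RedL (V := Node X Y (i + 1)) C' V1 V0 l) ≤ ρ) →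
  TabB X Y b K i M' C (ρ + Fintype.card (Node X Y i) * M * (1 - q) ^ G + E)

/-! ## Part C: questions -/

/-- AMN: monotonicity. -/
def T_AMN : Prop := ∀ (V : Type) (t t' r : ℕ) (g : (V → Bool) → Bool), t ≤ t' →
  Adp (Qst V t r) t g → Adp (Qst V t' r) t' g

/-- A0D: adaptive questions of level `0` are decision trees. -/
def T_A0D : Prop := ∀ (V : Type) (t u : ℕ) (g : (V → Bool) → Bool), Adp (Qst V u 0) t g →
  ∃ T : Pool.Agent.H68.AC.DT V, T.depth ≤ t ∧ ∀ y, T.eval y = g y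

/-- ARN: change of the names of the variables. -/
def T_ARN : Prop := ∀ (V V' : Type) (φ : V → V') (t u r : ℕ) (g : (V → Bool) → Bool),
  Adp (Qst V u r) t g → Adp (Qst V' u r) t fun y => g fun v => y (φ v)

/-- RDA: the questions lose one level. -/
def T_RDA : Prop := ∀ (A Z : Type) [Fintype A] [DecidableEq A] [Fintype Z] [DecidableEq Z]
  (t w r : ℕ) (q : ℝ) (L : A → Finset Z) (g : (A × Z → Bool) → Bool), 1 ≤ t → t ≤ w → 0 < q →
  64 * w * q ≤ 1 → (∀ a, Fintype.card A ≤ (L a).card) → Adp (Qst (A × Z) t (r + 1)) t g →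
  ∑ h : A → Z, ∑ l : A → Bool, uw L h * lw q l * ic (¬ ∃ g' : (A → Bool) → Bool,
      Adp (Qst A (t * w) r) (t * w) g' ∧ ∀ s : A → Bool, (∀ a, l a = false → s a = true) →
        g' s = g (glu h s)) ≤ 2 ^ (t * (2 * r + 1)) * (5 / 2 ^ (w + 1))

/-- RDF: a family of questions loses one level. -/
def T_RDF : Prop := ∀ (A Z : Type) [Fintype A] [DecidableEq A] [Fintype Z] [DecidableEq Z]
  (Φ1 Φ0 : (List Bool → Bool) → Prop) (m t w r t' : ℕ) (q : ℝ) (L : A → Finset Z)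
  (V1 V0 : (A × Z → Bool) → Prop), 1 ≤ t → t ≤ w → 0 < q → 64 * w * q ≤ 1 →
  (∀ a, Fintype.card A ≤ (L a).card) → t * w ≤ t' → Loc m Φ1 → Loc m Φ0 →
  Fam (A × Z) Φ1 Φ0 t (r + 1) V1 V0 →
  ∑ h : A → Z, ∑ l : A → Bool, uw L h * lw q l * ic (¬ RedC (Fam A Φ1 Φ0 t' r) V1 V0 h l) ≤
    erho m t w r

/-! ## Part D: quantum gates -/

/-- LMQ: a quantum algorithm becomes a decision tree under a random restriction by the value `true`. -/
def T_LMQ : Prop := ∀ (V : Type) [Fintype V] [DecidableEq V] (A : QAlg)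
  (tr : List Bool → Pool.Agent.H68.AC.DT V) (t D : ℕ) (q : ℝ), (∀ w, (tr w).depth ≤ t) → 1 ≤ t →
  1 ≤ D → 0 < q → q ≤ 1 / 2 → 2 * 10 ^ 4 * q * ((A.T : ℝ) + 1) ^ 2 * t * D ≤ 1 →
  ∑ l : V → Bool, lw q l * ic (¬ ∃ R, R.depth ≤ D ∧ GTree A tr l R) ≤ 4 / 2 ^ D

/-- ALT: monotonicity and negation of alternating quantifiers. -/
def T_ALT : Prop := ∀ (R : List Bool → Prop) (b : Bool) (k : ℕ) (P Q : List (List Bool) → Prop),
  ((∀ ws, ws.length = k → (∀ w ∈ ws, R w) → P ws → Q ws) → Alt R b k P → Alt R b k Q) ∧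
  (¬ Alt R b k P ↔ Alt R (!b) k fun ws => ¬ P ws)

/-- ALF: alternating quantifiers over trees are formulas. -/
def T_ALF : Prop := ∀ (V : Type) (m j D : ℕ) (tr : List (List Bool) → Pool.Agent.H68.AC.DT V),
  (∀ ws, (tr ws).depth ≤ D) → ∃ F : (V → Bool) → Bool, Fm (2 ^ (m + 1)) D j F ∧
    ∀ y, F y = true ↔ Alt (fun w => w.length ≤ m) true j fun ws => (tr ws).eval y = true

/-- LCY: `Yes` and `No` depend only on short strings. -/
def T_LCY : Prop := ∀ (m j : ℕ) (T : ℝ) (alg : List (List Bool) → QAlg), Adm m j T alg →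
  Loc m (Yes m j alg) ∧ Loc m (No m j alg)

/-- QST: all quantum gates become decision trees. -/
def T_QST : Prop := ∀ (V : Type) [Fintype V] [DecidableEq V] (mw m j t D : ℕ) (T q : ℝ)
  (alg : List (List Bool) → QAlg) (V1 V0 : (V → Bool) → Prop), mw ≤ m → Adm mw j T alg → 0 ≤ T →
  1 ≤ t → 1 ≤ D → 0 < q → q ≤ 1 / 2 → 2 * 10 ^ 4 * q * (T + 1) ^ 2 * t * D ≤ 1 →
  Fam V (Yes mw j alg) (No mw j alg) t 0 V1 V0 →
  ∑ l : V → Bool, lw q l * ic (¬ RedL (FmC V (2 ^ (m + 1)) D j) V1 V0 l) ≤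
    2 ^ ((m + 1) * j) * (4 / 2 ^ D)

/-! ## Part E: the beginning of the induction -/

/-- FMT: formulas. -/
def T_FMT : Prop := ∀ (X : Type) (Y : ℕ → Type) [Fintype X] [DecidableEq X] [∀ i, Fintype (Y i)]
  [∀ i, DecidableEq (Y i)] [∀ i, Nonempty (Y i)] (S w G K : ℕ) (q : ℝ), 1 ≤ w → 0 < q →
  64 * w * q ≤ 1 → (2 * w : ℝ) ≤ K * q → ∀ i : ℕ,
  (∀ i' < i, G * Fintype.card (Node X Y i') ≤ Fintype.card (Y i')) →
  TabB X Y true K i (Fintype.card (Node X Y i)) (FmC (Node X Y (i + 1)) S w (i + 1))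
    (errT X Y S w G q i)

/-- BSJ: quantum gates under formulas. -/
def T_BSJ : Prop := ∀ (X : Type) (Y : ℕ → Type) [Fintype X] [DecidableEq X] [Nonempty X]
  [∀ i, Fintype (Y i)] [∀ i, DecidableEq (Y i)] [∀ i, Nonempty (Y i)] (mw m t D G G' K i : ℕ)
  (T q q' : ℝ) (alg : List (List Bool) → QAlg), mw ≤ m → Adm mw (i + 1) T alg → 0 ≤ T → 1 ≤ t →
  1 ≤ D → 0 < q → q ≤ 1 / 2 → 2 * 10 ^ 4 * q * (T + 1) ^ 2 * t * D ≤ 1 → 0 < q' →
  64 * D * q' ≤ 1 → (2 * D : ℝ) ≤ K * q' →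
  (∀ i' < i, G * Fintype.card (Node X Y i') ≤ Fintype.card (Y i')) → 1 ≤ G' →
  TabB X Y true K i (G' * Fintype.card (Node X Y i))
    (Fam (Node X Y (i + 1)) (Yes mw (i + 1) alg) (No mw (i + 1) alg) t 0)
    (2 ^ ((m + 1) * (i + 1)) * (4 / 2 ^ D) +
      (Fintype.card (Node X Y i) : ℝ) * Fintype.card (Node X Y i) * (1 - q) ^ G' +
      errT X Y (2 ^ (m + 1)) D G q' i)

/-- FMF: formulas with one level more than the table, against the table without special rows. -/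
def T_FMF : Prop := ∀ (X : Type) (Y : ℕ → Type) [Fintype X] [DecidableEq X] [∀ i, Fintype (Y i)]
  [∀ i, DecidableEq (Y i)] [∀ i, Nonempty (Y i)] (S w G K : ℕ) (q : ℝ), 1 ≤ w → 0 < q →
  64 * w * q ≤ 1 → (2 * w : ℝ) ≤ K * q → ∀ i : ℕ,
  (∀ i' < i, G * Fintype.card (Node X Y i') ≤ Fintype.card (Y i')) →
  TabB X Y false K i (Fintype.card (Node X Y i))
    (fun V1 V0 => FmC (Node X Y (i + 1)) S w (i + 2) V0 V1) (S * errT X Y S w G q i)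

/-- BSF: quantum gates under formulas with one level more than the table. -/
def T_BSF : Prop := ∀ (X : Type) (Y : ℕ → Type) [Fintype X] [DecidableEq X] [Nonempty X]
  [∀ i, Fintype (Y i)] [∀ i, DecidableEq (Y i)] [∀ i, Nonempty (Y i)] (mw m t D G G' K i : ℕ)
  (T q q' : ℝ) (alg : List (List Bool) → QAlg), mw ≤ m → Adm mw (i + 2) T alg → 0 ≤ T → 1 ≤ t →
  1 ≤ D → 0 < q → q ≤ 1 / 2 → 2 * 10 ^ 4 * q * (T + 1) ^ 2 * t * D ≤ 1 → 0 < q' →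
  64 * D * q' ≤ 1 → (2 * D : ℝ) ≤ K * q' →
  (∀ i' < i, G * Fintype.card (Node X Y i') ≤ Fintype.card (Y i')) → 1 ≤ G' →
  TabB X Y false K i (G' * Fintype.card (Node X Y i))
    (Fam (Node X Y (i + 1)) (No mw (i + 2) alg) (Yes mw (i + 2) alg) t 0)
    (2 ^ ((m + 1) * (i + 2)) * (4 / 2 ^ D) +
      (Fintype.card (Node X Y i) : ℝ) * Fintype.card (Node X Y i) * (1 - q) ^ G' +
      2 ^ (m + 1) * errT X Y (2 ^ (m + 1)) D G q' i)

/-- BS0: a quantum algorithm at level `0`. -/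
def T_BS0 : Prop := ∀ (X : Type) (Y : ℕ → Type) [Fintype X] [DecidableEq X]
  [∀ i, DecidableEq (Y i)] (m t m0 : ℕ) (T : ℝ) (alg : List (List Bool) → QAlg)
  (V1 V0 : (Node X Y 0 → Bool) → Prop), Adm m 0 T alg → 0 ≤ T → 576 * T ^ 2 * t ≤ m0 →
  Fam (Node X Y 0) (Yes m 0 alg) (No m 0 alg) t 0 V1 V0 →
  ¬ Bad true m0 0 V1 V0 (() : Hid X Y 0)

/-- BSR: a set of quantum algorithms at level `0`. -/
def T_BSR : Prop := ∀ (X : Type) (Y : ℕ → Type) [Fintype X] [DecidableEq X]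
  [∀ i, DecidableEq (Y i)] (t m0 : ℕ) (T : ℝ) (R : Set QAlg)
  (V1 V0 : (Node X Y 0 → Bool) → Prop), (∀ A ∈ R, (A.T : ℝ) ≤ T) → 0 ≤ T → 576 * T ^ 2 * t ≤ m0 →
  Fam (Node X Y 0) (NoP R) (YesP R) t 0 V1 V0 → ¬ Bad false m0 0 V1 V0 (() : Hid X Y 0)

/-! ## Part F: the induction -/

/-- STP: one step for a family of questions. -/
def T_STP : Prop := ∀ (X : Type) (Y : ℕ → Type) [Fintype X] [DecidableEq X] [Nonempty X]
  [∀ i, Fintype (Y i)] [∀ i, DecidableEq (Y i)] [∀ i, Nonempty (Y i)]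
  (Φ1 Φ0 : (List Bool → Bool) → Prop) (b : Bool) (K i m t w r t' G' G : ℕ) (q E : ℝ), 1 ≤ t →
  t ≤ w → 0 < q → 64 * w * q ≤ 1 → t * w ≤ t' → Loc m Φ1 → Loc m Φ0 → 0 ≤ E → 1 ≤ G' →
  G * (G' * Fintype.card (Node X Y i)) ≤ Fintype.card (Y i) →
  TabB X Y b K i (G' * Fintype.card (Node X Y i)) (Fam (Node X Y (i + 1)) Φ1 Φ0 t' r) E →
  TabB X Y b K (i + 1) (G' * Fintype.card (Node X Y (i + 1)))
    (Fam (Node X Y (i + 2)) Φ1 Φ0 t (r + 1))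
    (erho m t w r +
      (Fintype.card (Node X Y i) : ℝ) * (G' * Fintype.card (Node X Y i) : ℕ) * (1 - q) ^ G + E)

/-- ST0: the step from level `0` to level `1` for a family of questions. -/
def T_ST0 : Prop := ∀ (X : Type) (Y : ℕ → Type) [Fintype X] [DecidableEq X] [Nonempty X]
  [∀ i, Fintype (Y i)] [∀ i, DecidableEq (Y i)]
  (Φ1 Φ0 : (List Bool → Bool) → Prop) (b : Bool) (K m0 m t w r t' G' : ℕ) (q : ℝ), 1 ≤ t →
  t ≤ w → 0 < q → 64 * w * q ≤ 1 → t * w ≤ t' → Loc m Φ1 → Loc m Φ0 → 1 ≤ G' →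
  2 * ((m0 : ℝ) + 2) ≤ K * q →
  (∀ V1' V0' : (Node X Y 0 → Bool) → Prop, Fam (Node X Y 0) Φ1 Φ0 t' r V1' V0' →
    ¬ Bad b m0 0 V1' V0' (() : Hid X Y 0)) →
  TabB X Y b K 0 (G' * Fintype.card (Node X Y 0)) (Fam (Node X Y 1) Φ1 Φ0 t (r + 1))
    (2 * erho m t w r)

/-- CDN: the number of the nodes and of the children. -/
def T_CDN : Prop := ∀ n i : ℕ, Fintype.card (Nn n i) = 2 ^ nod n i ∧
  Fintype.card (Ys n i) = 2 ^ n * 2 ^ nod n i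

/-- PAJ: the parameters for `j = i0 + 1` or `j = i0 + 2` quantifiers. -/
def T_PAJ : Prop := ∀ (k i0 c C : ℕ) (ε : ℝ), 0 < ε → ∀ᶠ n : ℕ in atTop, ∀ m : ℕ, 1 ≤ m →
  m ≤ n ^ c → ∃ (t w : ℕ → ℕ) (D K g : ℕ) (q2 : ℝ), t k = m ∧ (∀ r ≤ k, 1 ≤ t r) ∧
  (∀ r < k, t (r + 1) ≤ w r ∧ t (r + 1) * w r ≤ t r) ∧ g ≤ n ∧ 1 ≤ D ∧ 0 < q2 ∧ q2 ≤ 1 / 2 ∧
  2 * 10 ^ 4 * q2 * (C * 2 ^ ((1 / 2 - ε) * n) + 1 : ℝ) ^ 2 * t 0 * D ≤ 1 ∧
  (2 * D : ℝ) ≤ K * (1 / (64 * D)) ∧ 100 * K ≤ 2 ^ n ∧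
  ∑ r ∈ range k, (erho m (t (r + 1)) (w r) r + elam n (i0 + r) g (1 / (64 * w r))) +
    (2 ^ ((m + 1) * (i0 + 2)) * (4 / 2 ^ D) + (2 ^ nod n i0) ^ 2 * (1 - q2) ^ 2 ^ (n - g) +
      2 ^ (m + 1) * errT (Fin n → Bool) (Ys n) (2 ^ (m + 1)) D (2 ^ n) (1 / (64 * D)) i0) ≤ 1 / 100

/-- PA0: the parameters for quantum algorithms without quantifiers. -/
def T_PA0 : Prop := ∀ (k c C : ℕ) (ε : ℝ), 0 < ε → ∀ᶠ n : ℕ in atTop, ∀ m : ℕ, 1 ≤ m →
  m ≤ n ^ c → ∃ (t w : ℕ → ℕ) (K g m0 : ℕ), t (k + 1) = m ∧ (∀ r ≤ k + 1, 1 ≤ t r) ∧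
  (∀ r < k + 1, t (r + 1) ≤ w r ∧ t (r + 1) * w r ≤ t r) ∧ g ≤ n ∧
  576 * (C * 2 ^ ((1 / 2 - ε) * n) : ℝ) ^ 2 * t 0 ≤ m0 ∧
  2 * ((m0 : ℝ) + 2) ≤ K * (1 / (64 * w 0)) ∧ 100 * K ≤ 2 ^ n ∧
  ∑ r ∈ range k, (erho m (t (r + 2)) (w (r + 1)) (r + 1) + elam n r g (1 / (64 * w (r + 1)))) +
    2 * erho m (t 1) (w 0) 0 ≤ 1 / 100

/-- TJJ: the table lemma for the quantum classical hierarchy, at least one quantifier. -/
def T_TJJ : Prop := ∀ (k i0 c C : ℕ) (ε : ℝ), 0 < ε → ∀ᶠ n : ℕ in atTop,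
  ∀ (mw m : ℕ) (alg : List (List Bool) → QAlg) (e : List Bool → (Nn n (i0 + 1 + k) → Bool) → Bool),
  mw ≤ m → 1 ≤ m → m ≤ n ^ c → Adm mw (i0 + 1) (C * 2 ^ ((1 / 2 - ε) * n)) alg →
  (∀ w, Adp (Qst (Nn n (i0 + 1 + k)) m k) m (e w)) → ∃ K : ℕ, 100 * K ≤ 2 ^ n ∧
    100 * {H : Hid (Fin n → Bool) (Ys n) (i0 + 1 + k) |
      Bad true K (i0 + 1 + k) (fun y => Yes mw (i0 + 1) alg fun w => e w y)
        (fun y => No mw (i0 + 1) alg fun w => e w y) H}.ncard ≤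
      Fintype.card (Hid (Fin n → Bool) (Ys n) (i0 + 1 + k))

/-- TJF: the table lemma for the quantum classical hierarchy, against the empty table, at least two
quantifiers. -/
def T_TJF : Prop := ∀ (k i0 c C : ℕ) (ε : ℝ), 0 < ε → ∀ᶠ n : ℕ in atTop,
  ∀ (mw m : ℕ) (alg : List (List Bool) → QAlg) (e : List Bool → (Nn n (i0 + 1 + k) → Bool) → Bool),
  mw ≤ m → 1 ≤ m → m ≤ n ^ c → Adm mw (i0 + 2) (C * 2 ^ ((1 / 2 - ε) * n)) alg →
  (∀ w, Adp (Qst (Nn n (i0 + 1 + k)) m k) m (e w)) → ∃ K : ℕ, 100 * K ≤ 2 ^ n ∧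
    100 * {H : Hid (Fin n → Bool) (Ys n) (i0 + 1 + k) |
      Bad false K (i0 + 1 + k) (fun y => No mw (i0 + 2) alg fun w => e w y)
        (fun y => Yes mw (i0 + 2) alg fun w => e w y) H}.ncard ≤
      Fintype.card (Hid (Fin n → Bool) (Ys n) (i0 + 1 + k))

/-- TJ0: the table lemma for quantum algorithms. -/
def T_TJ0 : Prop := ∀ (k c C : ℕ) (ε : ℝ), 0 < ε → ∀ᶠ n : ℕ in atTop,
  ∀ (mw m : ℕ) (alg : List (List Bool) → QAlg) (e : List Bool → (Nn n (k + 1) → Bool) → Bool),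
  mw ≤ m → 1 ≤ m → m ≤ n ^ c → Adm mw 0 (C * 2 ^ ((1 / 2 - ε) * n)) alg →
  (∀ w, Adp (Qst (Nn n (k + 1)) m (k + 1)) m (e w)) → ∃ K : ℕ, 100 * K ≤ 2 ^ n ∧
    100 * {H : Hid (Fin n → Bool) (Ys n) (k + 1) |
      Bad true K (k + 1) (fun y => Yes mw 0 alg fun w => e w y)
        (fun y => No mw 0 alg fun w => e w y) H}.ncard ≤
      Fintype.card (Hid (Fin n → Bool) (Ys n) (k + 1))

/-- TJR: the table lemma for sets of quantum algorithms. -/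
def T_TJR : Prop := ∀ (k c C : ℕ) (ε : ℝ), 0 < ε → ∀ᶠ n : ℕ in atTop,
  ∀ (mw m : ℕ) (R : Set QAlg) (e : List Bool → (Nn n (k + 1) → Bool) → Bool),
  mw ≤ m → 1 ≤ m → m ≤ n ^ c → (∀ A ∈ R, A.Short mw ∧ (A.T : ℝ) ≤ C * 2 ^ ((1 / 2 - ε) * n)) →
  (∀ w, Adp (Qst (Nn n (k + 1)) m (k + 1)) m (e w)) → ∃ K : ℕ, 100 * K ≤ 2 ^ n ∧
    100 * {H : Hid (Fin n → Bool) (Ys n) (k + 1) |
      Bad false K (k + 1) (fun y => NoP R fun w => e w y) (fun y => YesP R fun w => e w y) H}.ncard ≤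
      Fintype.card (Hid (Fin n → Bool) (Ys n) (k + 1))

/-! ## Part G: strings -/

/-- MKX: the truth table of a table. -/
def T_MKX : Prop := ∀ (n l : ℕ) (T : Nn n l → Bool),
  (∀ p : Nn n l, orc (nod n l) (mkX n l (nod n l) T) (false :: nstr n l p) = T p) ∧
  ∃ φ : (Fin (nod n l) → Bool) → Nn n l, ∀ (T : Nn n l → Bool) v, mkX n l (nod n l) T v = T (φ v)

/-- SCX: an oracle and its section. -/
def T_SCX : Prop := ∀ (l n : ℕ) (O : List Bool → Bool) (X : (Fin (nod n l) → Bool) → Bool),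
  sec O (nod n l) = X → (∀ u : List Bool, u.length = n → (Special l O u ↔
    Special l (orc (nod n l) X) u)) ∧
  (List.replicate n false ∈ hlang l O ↔ List.replicate n false ∈ hlang l (orc (nod n l) X))

/-- FXU: the function of a table with one special row. -/
def T_FXU : Prop := ∀ (l n : ℕ) (H : Hid (Fin (n + 1) → Bool) (Ys (n + 1)) l)
  (x : Fin (n + 1) → Bool),
  fX l (n + 1) (nod (n + 1) l) (mkX (n + 1) l (nod (n + 1) l) (tabU l H x)) = some (x 0) ∧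
  fR l (n + 1) (nod (n + 1) l) (mkX (n + 1) l (nod (n + 1) l) (tabU l H x)) = some (!x 0) ∧
  fR l (n + 1) (nod (n + 1) l) (mkX (n + 1) l (nod (n + 1) l) (tabT l H)) = some true

/-- UNI: the numbers of the sections. -/
def T_UNI : Prop := ∀ a b l r l' r' : ℕ, (a = 1 ∨ a = 3) → (b = 1 ∨ b = 3) → 1 ≤ l → 1 ≤ l' →
  (2 ^ (l + 1) - 1) * (a * 2 ^ r) = (2 ^ (l' + 1) - 1) * (b * 2 ^ r') → a = b ∧ l = l' ∧ r = r'

/-! ## Part H: the end -/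

/-- AVJ: a machine of the hierarchy is not right in most simulations. -/
def T_AVJ : Prop := ∀ (k j c C : ℕ) (ε : ℝ), 1 ≤ k → 0 < ε → ∀ᶠ n : ℕ in atTop,
  ∀ (mw m : ℕ) (alg : List (List Bool) → QAlg), mw ≤ m → m ≤ n ^ c →
  Adm mw j (C * 2 ^ ((1 / 2 - ε) * n)) alg →
  ¬ SimK k (nod n (k + j)) m (fun O =>
    (List.replicate n false ∈ hlang (k + j) O → Yes mw j alg O) ∧
      (List.replicate n false ∉ hlang (k + j) O → No mw j alg O)) (fX (k + j) n (nod n (k + j)))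

/-- AVR: a set of quantum algorithms is not right in most simulations. -/
def T_AVR : Prop := ∀ (k c C : ℕ) (ε : ℝ), 1 ≤ k → 0 < ε → ∀ᶠ n : ℕ in atTop,
  ∀ (mw m : ℕ) (R : Set QAlg), mw ≤ m → m ≤ n ^ c →
  (∀ A ∈ R, A.Short mw ∧ (A.T : ℝ) ≤ C * 2 ^ ((1 / 2 - ε) * n)) →
  ¬ SimK k (nod n k) m (fun O =>
    (List.replicate n false ∉ hlang k O → YesP R O) ∧
      (List.replicate n false ∈ hlang k O → NoP R O)) (fR k n (nod n k))

/-- AVF: a machine of the hierarchy with `j + 1` quantifiers is not right in most simulations with respect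
to the complement of a language of level `k + j + 1`. -/
def T_AVF : Prop := ∀ (k j c C : ℕ) (ε : ℝ), 1 ≤ k → 0 < ε → ∀ᶠ n : ℕ in atTop,
  ∀ (mw m : ℕ) (alg : List (List Bool) → QAlg), mw ≤ m → m ≤ n ^ c →
  Adm mw (j + 1) (C * 2 ^ ((1 / 2 - ε) * n)) alg →
  ¬ SimK k (nod n (k + j)) m (fun O =>
    (List.replicate n false ∉ hlang (k + j) O → Yes mw (j + 1) alg O) ∧
      (List.replicate n false ∈ hlang (k + j) O → No mw (j + 1) alg O)) (fR (k + j) n (nod n (k + j)))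

/-- MCP: the strings of `hlang l O` whose length is a power of two and their complement. -/
def T_MCP : Prop := ∀ l : ℕ, ∃ E E' : Machine (l + 1), ∀ O, OneSpecialP l O →
  E.lang O = {x | x ∈ hlang l O ∧ ∃ r, x.length = 2 ^ r} ∧ E'.lang O = (E.lang O)ᶜ

end Pool.Agent.H68.QC
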