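import Pool.Agent.H68.QC.Targets
import Pool.Agent.H62.OQ.LWS

set_option autoImplicit false

namespace Pool.Agent.H68.QCX

open Finset Pool.Agent.H68.QC Pool.Agent.H70.OQ Pool.Agent.H62.OQ

theorem pf_LVL : T_LVL := by
  classical
  intro A Z _ _ _ _ q M G L h0 h1 hG
  have hemb : ∀ a, ∃ f : Fin M × Fin G → Z, Function.Injective f ∧ ∀ p, f p ∈ L a := by
    intro a
    obtain ⟨e⟩ : Nonempty (Fin M × Fin G ↪ {z // z ∈ L a}) := by
      apply Function.Embedding.nonempty_of_card_le
      rw [Fintype.card_prod, Fintype.card_fin, Fintype.card_fin, Fintype.card_coe]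
      linarith [mul_comm G M, hG a]
    exact ⟨fun p => (e p).1, fun p p' h => e.injective (Subtype.ext h), fun p => (e p).2⟩
  choose e he1 he2 using hemb
  have hpt : ∀ l : A × Z → Bool,
      ic (∃ a, ((L a).filter fun z => l (a, z) = true).card < M) ≤
        ∑ a : A, ∑ i : Fin M, ∏ x : A × Z,
          (if x ∈ (univ : Finset (Fin G)).image (fun g => (a, e a (i, g))) then
            (if l x = true then (0 : ℝ) else 1) else 1) := by
    intro l
    have hnn : ∀ (a : A) (i : Fin M), (0 : ℝ) ≤ ∏ x : A × Z,
          (if x ∈ (univ : Finset (Fin G)).image (fun g => (a, e a (i, g))) then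
            (if l x = true then (0 : ℝ) else 1) else 1) := by
      intro a i
      refine prod_nonneg fun x _ => ?_
      split_ifs <;> norm_num
    by_cases h : ∃ a, ((L a).filter fun z => l (a, z) = true).card < M
    · rw [ic_pos h]
      obtain ⟨a, ha⟩ := h
      have hi : ∃ i : Fin M, ∀ g : Fin G, l (a, e a (i, g)) = false := by
        by_contra hn
        push Not at hn
        choose g hg using hn
        have : M ≤ ((L a).filter fun z => l (a, z) = true).card := by
          calc M = (univ.image fun i : Fin M => e a (i, g i)).card := by
                rw [card_image_of_injective, card_univ, Fintype.card_fin]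
                intro i j hij
                have := he1 a hij
                exact (Prod.mk.inj this).1
            _ ≤ _ := by
                refine card_le_card ?_
                intro z hz
                rw [mem_image] at hz
                obtain ⟨i, -, rfl⟩ := hz
                rw [mem_filter]
                refine ⟨he2 a _, ?_⟩
                have := hg i
                simpa using this
        omega
      obtain ⟨i, hi⟩ := hi
      have hone : ∏ x : A × Z,
          (if x ∈ (univ : Finset (Fin G)).image (fun g => (a, e a (i, g))) then
            (if l x = true then (0 : ℝ) else 1) else 1) = 1 := by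
        refine prod_eq_one fun x _ => ?_
        split_ifs with h1 h2
        · exfalso
          rw [mem_image] at h1
          obtain ⟨g, -, rfl⟩ := h1
          rw [hi g] at h2
          exact Bool.false_ne_true h2
        · rfl
        · rfl
      calc (1 : ℝ) = _ := hone.symm
        _ ≤ ∑ i : Fin M, ∏ x : A × Z,
          (if x ∈ (univ : Finset (Fin G)).image (fun g => (a, e a (i, g))) then
            (if l x = true then (0 : ℝ) else 1) else 1) :=
          single_le_sum (f := fun i : Fin M => ∏ x : A × Z,
          (if x ∈ (univ : Finset (Fin G)).image (fun g => (a, e a (i, g))) then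
            (if l x = true then (0 : ℝ) else 1) else 1)) (fun j _ => hnn a j) (mem_univ i)
        _ ≤ _ := single_le_sum (f := fun a : A => ∑ i : Fin M, ∏ x : A × Z,
          (if x ∈ (univ : Finset (Fin G)).image (fun g => (a, e a (i, g))) then
            (if l x = true then (0 : ℝ) else 1) else 1))
            (fun b _ => sum_nonneg fun j _ => hnn b j) (mem_univ a)
    · rw [ic_neg h]
      exact sum_nonneg fun a _ => sum_nonneg fun i _ => hnn a i
  have hval : ∀ (a : A) (i : Fin M), ∑ l : A × Z → Bool, lw q l * ∏ x : A × Z,
      (if x ∈ (univ : Finset (Fin G)).image (fun g => (a, e a (i, g))) then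
        (if l x = true then (0 : ℝ) else 1) else 1) = (1 - q) ^ G := by
    intro a i
    rw [lw_prod q (fun (x : A × Z) (b : Bool) =>
      if x ∈ (univ : Finset (Fin G)).image (fun g => (a, e a (i, g))) then
        (if b = true then (0 : ℝ) else 1) else 1)]
    have : ∀ x : A × Z, (q * (if x ∈ (univ : Finset (Fin G)).image (fun g => (a, e a (i, g))) then
        (if (true : Bool) = true then (0 : ℝ) else 1) else 1) +
        (1 - q) * (if x ∈ (univ : Finset (Fin G)).image (fun g => (a, e a (i, g))) then
        (if (false : Bool) = true then (0 : ℝ) else 1) else 1)) =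
        if x ∈ (univ : Finset (Fin G)).image (fun g => (a, e a (i, g))) then 1 - q else 1 := by
      intro x
      by_cases hx : x ∈ (univ : Finset (Fin G)).image (fun g => (a, e a (i, g)))
      · simp only [if_pos hx]; simp
      · simp only [if_neg hx]; ring
    rw [prod_congr rfl fun x _ => this x, ← prod_filter, filter_mem_eq_inter, univ_inter, prod_const, card_image_of_injective,
      card_univ, Fintype.card_fin]
    intro g g' hgg
    have := he1 a (Prod.mk.inj hgg).2
    exact (Prod.mk.inj this).2
  calc ∑ l : A × Z → Bool, lw q l * ic (∃ a, ((L a).filter fun z => l (a, z) = true).card < M)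
      ≤ ∑ l : A × Z → Bool, lw q l * ∑ a : A, ∑ i : Fin M, ∏ x : A × Z,
          (if x ∈ (univ : Finset (Fin G)).image (fun g => (a, e a (i, g))) then
            (if l x = true then (0 : ℝ) else 1) else 1) :=
        sum_le_sum fun l _ => mul_le_mul_of_nonneg_left (hpt l) (lw_nonneg q h0 h1 l)
    _ = ∑ a : A, ∑ i : Fin M, ∑ l : A × Z → Bool, lw q l * ∏ x : A × Z,
          (if x ∈ (univ : Finset (Fin G)).image (fun g => (a, e a (i, g))) then
            (if l x = true then (0 : ℝ) else 1) else 1) := by
        simp only [mul_sum]
        rw [sum_comm]
        refine sum_congr rfl fun a _ => ?_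
        rw [sum_comm]
    _ = Fintype.card A * M * (1 - q) ^ G := by
        simp only [hval, sum_const, card_univ, Fintype.card_fin, nsmul_eq_mul]
        ring
    _ ≤ _ := le_refl _


end Pool.Agent.H68.QCX
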