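import Pool.Agent.H68.QC.Fin
import Pool.Agent.H68.QC.A0D
import Pool.Agent.H68.QC.LVL
import Pool.Agent.H6.QC.AMN
import Pool.Agent.H33.QC.BS0
import Pool.Agent.H92.QC.BSF
import Pool.Agent.H92.QC.FMT
import Pool.Agent.H34.QC.BSR
import Pool.Agent.H34.QC.FMF
import Pool.Agent.H91.QC.CH0
import Pool.Agent.H91.QC.SYL
import Pool.Agent.H60.QC.MCP
import Pool.Agent.H60.QC.AVF
import Pool.Agent.H90.QC.PA0
import Pool.Agent.H90.QC.PAJ
import Pool.Agent.H68.QC.TJJ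
import Pool.Agent.H40.QC.FAL
import Pool.Agent.H96.QC.TJR
import Pool.Agent.H54.QC.ALF
import Pool.Agent.H77.QC.ALT
import Pool.Agent.H46.QC.ARN
import Pool.Agent.H81.QC.AVJ
import Pool.Agent.H22.QC.AVR
import Pool.Agent.H86.QC.BSJ
import Pool.Agent.H86.QC.SCX
import Pool.Agent.H86.QC.STP
import Pool.Agent.H86.QC.UNI
import Pool.Agent.H56.QC.CDN
import Pool.Agent.H55.QC.FXU
import Pool.Agent.H42.QC.GSL
import Pool.Agent.H42.QC.GST
import Pool.Agent.H42.QC.GS0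
import Pool.Agent.H49.QC.LCY
import Pool.Agent.H75.LQ.LMQ
import Pool.Agent.H18.QC.MKX
import Pool.Agent.H75.QC.QST
import Pool.Agent.H75.QC.RDA
import Pool.Agent.H75.QC.RDF
import Pool.Agent.H48.QC.ST0
import Pool.Agent.H69.QC.TJ0
import Pool.Agent.H69.QC.TJF
import Pool.Agent.H70.RW.All

/-!
# The quantum classical hierarchy relative to an oracle with Σ_k in EQP: assembly
-/

set_option autoImplicit false

namespace Pool.Agent.H68.QC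

theorem all_A0D : T_A0D := Pool.Agent.H68.QCX.pf_A0D

theorem all_AMN : T_AMN := Pool.Agent.H6.QC.pf_AMN

theorem all_ALT : T_ALT := Pool.Agent.H77.QC.pf_ALT

theorem all_LCY : T_LCY := Pool.Agent.H49.QC.pf_LCY all_ALT

theorem all_CDN : T_CDN := Pool.Agent.H56.QC.pf_CDN

theorem all_SCX : T_SCX := Pool.Agent.H86.QC.pf_SCX

theorem all_FXU : T_FXU := Pool.Agent.H55.QC.pf_FXU Pool.Agent.H18.QC.pf_MKX

theorem all_RDF : T_RDF := Pool.Agent.H75.QC.pf_RDF (Pool.Agent.H75.QC.pf_RDA all_A0D) all_AMN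

theorem all_QST : T_QST := Pool.Agent.H75.QC.pf_QST Pool.Agent.H75.LQ.pf_LMQ all_A0D
  (Pool.Agent.H54.QC.pf_ALF all_ALT) all_ALT

theorem all_GSL : T_GSL := Pool.Agent.H42.QC.pf_GSL Pool.Agent.H91.QC.pf_SYL
  Pool.Agent.H68.QCX.pf_LVL

theorem all_STP : T_STP := Pool.Agent.H86.QC.pf_STP Pool.Agent.H42.QC.pf_GST all_RDF

theorem all_ST0 : T_ST0 := Pool.Agent.H48.QC.pf_ST0
  (Pool.Agent.H42.QC.pf_GS0 Pool.Agent.H91.QC.pf_CH0) all_RDF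

theorem all_TJ0 : T_TJ0 := Pool.Agent.H69.QC.pf_TJ0 all_ST0 all_STP
  (Pool.Agent.H33.QC.pf_BS0 all_A0D) all_LCY Pool.Agent.H90.QC.pf_PA0 all_CDN

theorem all_TJR : T_TJR := Pool.Agent.H96.QC.pf_TJR all_ST0 all_STP
  (Pool.Agent.H34.QC.pf_BSR all_A0D) Pool.Agent.H90.QC.pf_PA0 all_CDN

theorem all_TJF : T_TJF := Pool.Agent.H69.QC.pf_TJF all_STP
  (Pool.Agent.H92.QC.pf_BSF all_GSL all_QST Pool.Agent.H34.QC.pf_FMF) all_LCY
  Pool.Agent.H90.QC.pf_PAJ all_CDN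

theorem all_TJJ : T_TJJ := Pool.Agent.H68.QCX.pf_TJJ all_STP
  (Pool.Agent.H86.QC.pf_BSJ all_GSL all_QST Pool.Agent.H92.QC.pf_FMT) all_LCY
  Pool.Agent.H90.QC.pf_PAJ all_CDN

theorem all_AVJ : T_AVJ := Pool.Agent.H81.QC.pf_AVJ all_TJJ all_TJ0 Pool.Agent.H18.QC.pf_MKX all_FXU
  Pool.Agent.H46.QC.pf_ARN all_AMN all_SCX

theorem all_AVF : T_AVF := Pool.Agent.H60.QC.pf_AVF all_TJF all_TJR Pool.Agent.H18.QC.pf_MKX all_FXU
  all_SCX Pool.Agent.H46.QC.pf_ARN all_AMN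

theorem all_AVR : T_AVR := Pool.Agent.H22.QC.pf_AVR all_TJR Pool.Agent.H18.QC.pf_MKX all_FXU
  all_SCX Pool.Agent.H46.QC.pf_ARN all_AMN

theorem all_FAL : T_FAL := Pool.Agent.H40.QC.pf_FAL Pool.Agent.H86.QC.pf_UNI all_FXU all_SCX

theorem all_FIN : T_FIN := pf_FIN Pool.Agent.H70.RW.all_FNU all_FAL all_AVJ all_AVF all_AVR all_AMN
  all_LCY all_SCX Pool.Agent.H60.RC.pf_LOC

end Pool.Agent.H68.QC
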