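import Pool.Agent.H70.OQ.Stmt

/-!
# The quantum classical polynomial hierarchy relative to an oracle: definitions

The quantum query algorithms `QAlg` are those of `Pool.Agent.H6.NB.Stmt`; the alternating quantifiers `Alt`,
the special strings `Special` and the languages `hlang` are those of `Pool.Agent.H70.OQ.Stmt`.
-/

set_option autoImplicit false

namespace Pool.Agent.H68.QC

open Pool.Agent.H6.NB Pool.Agent.H70.OQ

/-- A machine of the class QCΣ_j, as far as its dependence on the oracle is concerned: for an input `x` and
strings `w₁, …, w_j` of length at most `|x| ^ c + c` it is the quantum algorithm `alg x [w₁, …, w_j]`, which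
makes queries of length at most `|x| ^ c + c`; the number of the queries is not restricted to polynomials, but
is at most `C * 2 ^ ((1/2 - ε) * |x|)`. (No uniformity is required.) -/
structure QMach (j : ℕ) where
  c : ℕ
  C : ℕ
  ε : ℝ
  ε_pos : 0 < ε
  alg : List Bool → List (List Bool) → QAlg
  short : ∀ x ws, ws.length = j → (∀ w ∈ ws, w.length ≤ x.length ^ c + c) →
    (alg x ws).Short (x.length ^ c + c)
  few : ∀ x ws, ws.length = j → (∀ w ∈ ws, w.length ≤ x.length ^ c + c) →
    ((alg x ws).T : ℝ) ≤ C * 2 ^ ((1 / 2 - ε) * x.length)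

/-- `∃ w₁ ∀ w₂ ∃ w₃ …` (lengths at most `|x| ^ c + c`) the quantum algorithm accepts with probability at
least `2/3`. -/
def QMach.Yes {j : ℕ} (M : QMach j) (O : List Bool → Bool) (x : List Bool) : Prop :=
  Alt (fun w => w.length ≤ x.length ^ M.c + M.c) true j fun ws => 2 / 3 ≤ (M.alg x ws).prob O

/-- `∀ w₁ ∃ w₂ ∀ w₃ …` (lengths at most `|x| ^ c + c`) the quantum algorithm accepts with probability at
most `1/3`. -/
def QMach.No {j : ℕ} (M : QMach j) (O : List Bool → Bool) (x : List Bool) : Prop :=
  Alt (fun w => w.length ≤ x.length ^ M.c + M.c) false j fun ws => (M.alg x ws).prob O ≤ 1 / 3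

/-- The machine is right at the input `x` with respect to the language `L`. -/
def QMach.Right {j : ℕ} (M : QMach j) (O : List Bool → Bool) (L : Set (List Bool)) (x : List Bool) :
    Prop := (x ∈ L → M.Yes O x) ∧ (x ∉ L → M.No O x)

/-- For every `n = 2 ^ r` exactly one string of length `n` is special. -/
def OneSpecialP (l : ℕ) (O : List Bool → Bool) : Prop :=
  ∀ r : ℕ, ∃! u : List Bool, u.length = 2 ^ r ∧ Special l O u

end Pool.Agent.H68.QC
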