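import Pool.Agent.H70.OQ.Defs
import Pool.Agent.H70.RW.Stmt2
import Pool.Agent.H68.QC.Stmt

/-!
# The quantum classical hierarchy relative to an oracle with Σ_k in EQP: definitions for the proof
-/

set_option autoImplicit false

namespace Pool.Agent.H68.QC

open Finset Pool.Agent.H6.NB Pool.Agent.H70.OQ Pool.Agent.H70.RK

/-- Where the variables which are not live (`l v = false`) have the value `true`, the tree `R` decides
whether the quantum algorithm `A`, whose queries `w` are answered by the trees `tr w`, accepts with
probability at least `2/3` or at most `1/3`. -/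
def GTree {V : Type} (A : QAlg) (tr : List Bool → Pool.Agent.H68.AC.DT V) (l : V → Bool)
    (R : Pool.Agent.H68.AC.DT V) : Prop :=
  ∀ y : V → Bool, (∀ v, l v = false → y v = true) →
    (2 / 3 ≤ A.prob (fun w => (tr w).eval y) → R.eval y = true) ∧
      (A.prob (fun w => (tr w).eval y) ≤ 1 / 3 → R.eval y = false)

/-- A class of pairs of predicates. -/
abbrev Cls (V : Type) : Type := ((V → Bool) → Prop) → ((V → Bool) → Prop) → Prop

/-- `V1` is true for more than `K` tables with the hidden children `H` and one special row, and so is `V0`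
(`b = true`) or `V0` is true for the table without special rows (`b = false`). -/
def Bad {X : Type} {Y : ℕ → Type} [DecidableEq X] [∀ i, DecidableEq (Y i)] (b : Bool) (K i : ℕ)
    (V1 V0 : (Node X Y i → Bool) → Prop) (H : Hid X Y i) : Prop :=
  K < {x : X | V1 (tabU i H x)}.ncard ∧
    if b then K < {x : X | V0 (tabU i H x)}.ncard else V0 (tabT i H)

/-- `Bad` is rare for a pair in the class `C`, if the last hidden children are chosen in given sets with at
least `M` elements. -/
def TabB (X : Type) (Y : ℕ → Type) [Fintype X] [DecidableEq X] [∀ i, Fintype (Y i)]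
    [∀ i, DecidableEq (Y i)] (b : Bool) (K i M : ℕ) (C : Cls (Node X Y (i + 1))) (E : ℝ) : Prop :=
  ∀ (L : Node X Y i → Finset (Y i)) (V1 V0 : (Node X Y (i + 1) → Bool) → Prop), C V1 V0 →
    (∀ a, M ≤ (L a).card) →
    ∑ H : Hid X Y i, ∑ h : Node X Y i → Y i, uw L h *
      ic (Bad b K (i + 1) V1 V0 ((H, h) : Hid X Y (i + 1))) ≤ E * Fintype.card (Hid X Y i)

/-- The pair `V1, V0` is implied by a pair of the class `C` if the last hidden children are `h` and the
nodes which are not live have the value `true`. -/
def RedC {A Z : Type} [DecidableEq Z] (C : Cls A) (V1 V0 : (A × Z → Bool) → Prop) (h : A → Z)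
    (l : A → Bool) : Prop :=
  ∃ V1' V0' : (A → Bool) → Prop, C V1' V0' ∧ ∀ s : A → Bool, (∀ a, l a = false → s a = true) →
    (V1 (glu h s) → V1' s) ∧ (V0 (glu h s) → V0' s)

/-- The pair `V1, V0` is implied by a pair of the class `C` where the variables which are not live have the
value `true`. -/
def RedL {V : Type} (C : Cls V) (V1 V0 : (V → Bool) → Prop) (l : V → Bool) : Prop :=
  ∃ V1' V0' : (V → Bool) → Prop, C V1' V0' ∧ ∀ y : V → Bool, (∀ v, l v = false → y v = true) →
    (V1 y → V1' y) ∧ (V0 y → V0' y)

/-- The predicates of an oracle whose answers are computed by `t` adaptive questions of level `r` and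
size `t`. -/
def Fam (V : Type) (Φ1 Φ0 : (List Bool → Bool) → Prop) (t r : ℕ) : Cls V := fun V1 V0 =>
  ∃ e : List Bool → (V → Bool) → Bool, (∀ w, Adp (Qst V t r) t (e w)) ∧
    (∀ y, V1 y ↔ Φ1 fun w => e w y) ∧ ∀ y, V0 y ↔ Φ0 fun w => e w y

/-- The value `true` and the value `false` of a formula. -/
def FmC (V : Type) (S t d : ℕ) : Cls V := fun V1 V0 =>
  ∃ F : (V → Bool) → Bool, Fm S t d F ∧ (∀ y, V1 y ↔ F y = true) ∧ ∀ y, V0 y ↔ F y = false

/-- `Φ` depends only on the strings of length at most `m`. -/
def Loc (m : ℕ) (Φ : (List Bool → Bool) → Prop) : Prop :=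
  ∀ O O' : List Bool → Bool, (∀ w, w.length ≤ m → O w = O' w) → Φ O → Φ O'

/-- The live elements of `L a`, or `L a` if there are none. -/
def LofL {A Z : Type} [DecidableEq Z] (L : A → Finset Z) (l : A × Z → Bool) (a : A) : Finset Z :=
  if ((L a).filter fun z => l (a, z) = true) = ∅ then L a else (L a).filter fun z => l (a, z) = true

/-- `∃ w₁ ∀ w₂ …` the algorithm accepts. -/
def Yes (m j : ℕ) (alg : List (List Bool) → QAlg) (O : List Bool → Bool) : Prop :=
  Alt (fun w => w.length ≤ m) true j fun ws => 2 / 3 ≤ (alg ws).prob O

/-- `∀ w₁ ∃ w₂ …` the algorithm rejects. -/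
def No (m j : ℕ) (alg : List (List Bool) → QAlg) (O : List Bool → Bool) : Prop :=
  Alt (fun w => w.length ≤ m) false j fun ws => (alg ws).prob O ≤ 1 / 3

/-- Witnesses of length at most `m` and an algorithm with at most `T` queries of length at most `m`. -/
def Adm (m j : ℕ) (T : ℝ) (alg : List (List Bool) → QAlg) : Prop :=
  ∀ ws : List (List Bool), ws.length = j → (∀ w ∈ ws, w.length ≤ m) →
    (alg ws).Short m ∧ ((alg ws).T : ℝ) ≤ T

/-- Some member of the set accepts. -/
def YesP (R : Set QAlg) (O : List Bool → Bool) : Prop := ∃ A ∈ R, 2 / 3 ≤ A.prob O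

/-- No member of the set accepts. -/
def NoP (R : Set QAlg) (O : List Bool → Bool) : Prop := ∀ A ∈ R, A.prob O ≤ 1 / 3

/-- The error of one step for the questions. -/
noncomputable def erho (m t w r : ℕ) : ℝ := 2 ^ (m + 1) * (2 ^ (t * (2 * r + 1)) * (5 / 2 ^ (w + 1)))

/-- The number of the nodes of level `i` is `2 ^ nod n i`. -/
def nod (n i : ℕ) : ℕ := (2 ^ (i + 1) - 1) * n

/-- The probability of a node with few live children. -/
noncomputable def elam (n i g : ℕ) (q : ℝ) : ℝ := (2 ^ nod n i) ^ 2 * 2 ^ (n - g) * (1 - q) ^ 2 ^ g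

/-- The oracle with the section `X` of number `N` which is `false` elsewhere. -/
def orc (N : ℕ) (X : (Fin N → Bool) → Bool) (w : List Bool) : Bool :=
  match w with
  | false :: v => if v.length = N then X fun i => v.getD i false else false
  | _ => false

open Classical in
/-- Does the only special string of length `n` begin with `1`? -/
noncomputable def fX (l n N : ℕ) (X : (Fin N → Bool) → Bool) : Option Bool :=
  if ∃! u : List Bool, u.length = n ∧ Special l (orc N X) u then
    some (decide (List.replicate n false ∈ hlang l (orc N X))) else none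

open Classical in
/-- Is there no special string of length `n` which begins with `1`? (Promise: at most one string is
special.) -/
noncomputable def fR (l n N : ℕ) (X : (Fin N → Bool) → Bool) : Option Bool :=
  if ∀ u u' : List Bool, u.length = n → u'.length = n → Special l (orc N X) u →
      Special l (orc N X) u' → u = u' then
    some (decide (List.replicate n false ∉ hlang l (orc N X))) else none

/-- The truth table of a table. -/
noncomputable def mkX (n l N : ℕ) (T : Nn n l → Bool) : (Fin N → Bool) → Bool := by
  classical
  exact fun v => if h : ∃ p : Nn n l, nstr n l p = List.ofFn v then T h.choose else false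

end Pool.Agent.H68.QC
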