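import Pool.Agent.H68.QC.TargetsF
import Pool.Agent.H70.RW.Fin4

/-!
# The quantum classical hierarchy relative to an oracle with Σ_k in EQP: the final theorem
-/

set_option autoImplicit false

namespace Pool.Agent.H68.QC

open Finset Filter Pool.Agent.H6.NB Pool.Agent.H70.OQ Pool.Agent.H70.RK Pool.Agent.H70.RC
open Pool.Agent.H70.RW (SimK yesW inw T_FNU)
open Pool.Agent.H78.OY (PCorrect)

/-- monotonicity of the simulations -/
theorem simK_mono (hA : T_AMN) {k n m m' : ℕ} {τ τ' : (List Bool → Bool) → Prop}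
    {f f' : ((Fin n → Bool) → Bool) → Option Bool} (hm : m ≤ m') (hτ : ∀ O, τ O → τ' O) (hf : f = f')
    (h : SimK k n m τ f) : SimK k n m' τ' f' := by
  subst hf
  obtain ⟨e, he, hX⟩ := h
  refine ⟨e, fun i w => hA _ _ _ _ _ hm (he i w), fun X hne => ?_⟩
  refine le_trans (Nat.mul_le_mul_left 100 (Set.ncard_le_ncard ?_ (Set.toFinite _))) (hX X hne)
  intro i hi hc
  exact hi ⟨hc.1, hτ _ hc.2⟩

theorem le_nod (n l : ℕ) : n ≤ nod n l := by
  unfold nod
  have : 1 ≤ 2 ^ (l + 1) - 1 := by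
    have : 2 ^ 1 ≤ 2 ^ (l + 1) := Nat.pow_le_pow_right (by norm_num) (by omega)
    omega
  exact Nat.le_mul_of_pos_left n this

theorem nod_le (n l : ℕ) : nod n l ≤ 2 ^ (l + 1) * n := by
  unfold nod
  exact Nat.mul_le_mul_right n (Nat.sub_le _ _)

/-- the costs are polynomial in `n` -/
theorem cost_le (l c n : ℕ) (hn : 2 ^ (l + 1) ≤ n) (hc : c + 2 ≤ n) :
    nod n l ^ c + c ≤ n ^ (2 * c + 1) := by
  have h1 : nod n l ≤ n ^ 2 := (nod_le n l).trans (by
    rw [pow_two]
    exact Nat.mul_le_mul_right n hn)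
  have h2 : nod n l ^ c ≤ n ^ (2 * c) := by
    rw [pow_mul]
    exact Nat.pow_le_pow_left h1 c
  have h3 : 1 ≤ n ^ (2 * c) := Nat.one_le_pow _ _ (by omega)
  calc nod n l ^ c + c ≤ n ^ (2 * c) + n ^ (2 * c) * c :=
        add_le_add h2 (Nat.le_mul_of_pos_left c h3)
    _ = n ^ (2 * c) * (c + 1) := by ring
    _ ≤ n ^ (2 * c) * n := Nat.mul_le_mul_left _ (by omega)
    _ = n ^ (2 * c + 1) := by rw [pow_succ]

theorem pow_mono_cost {n N c c' : ℕ} (hn : n ≤ N) (hN : 1 ≤ N) (hc : c ≤ c') :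
    n ^ c + c ≤ N ^ c' + c' :=
  add_le_add ((Nat.pow_le_pow_left hn c).trans (Nat.pow_le_pow_right hN hc)) hc

theorem adm_of {j : ℕ} (M : QMach j) (n : ℕ) :
    Adm (n ^ M.c + M.c) j (M.C * 2 ^ ((1 / 2 - M.ε) * n)) (M.alg (List.replicate n false)) := by
  intro ws hws hle
  have h1 := M.short (List.replicate n false) ws hws (by simpa using hle)
  have h2 := M.few (List.replicate n false) ws hws (by simpa using hle)
  rw [List.length_replicate] at h1 h2
  exact ⟨h1, h2⟩

theorem yes_iff {j : ℕ} (M : QMach j) (O : List Bool → Bool) (n : ℕ) :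
    M.Yes O (List.replicate n false) ↔
      Yes (n ^ M.c + M.c) j (M.alg (List.replicate n false)) O := by
  unfold QMach.Yes Yes
  rw [List.length_replicate]

theorem no_iff {j : ℕ} (M : QMach j) (O : List Bool → Bool) (n : ℕ) :
    M.No O (List.replicate n false) ↔
      No (n ^ M.c + M.c) j (M.alg (List.replicate n false)) O := by
  unfold QMach.No No
  rw [List.length_replicate]

/-- `hlang l O` at `0ⁿ` depends only on one section -/
theorem hlang_loc (hS : T_SCX) (l n : ℕ) (O O' : List Bool → Bool)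
    (h : ∀ w : List Bool, w.length ≤ nod n l + 1 → O w = O' w) :
    (List.replicate n false ∈ hlang l O ↔ List.replicate n false ∈ hlang l O') := by
  have e : sec O (nod n l) = sec O' (nod n l) := by
    funext v
    unfold sec
    exact h _ (by simp)
  rw [(hS l n O _ rfl).2, (hS l n O' _ rfl).2, e]

theorem loc_of (hL : T_LCY) {j : ℕ} (M : QMach j) (n : ℕ) (O O' : List Bool → Bool)
    (h : ∀ w : List Bool, w.length ≤ n ^ M.c + M.c → O w = O' w) :
    (M.Yes O (List.replicate n false) → M.Yes O' (List.replicate n false)) ∧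
      (M.No O (List.replicate n false) → M.No O' (List.replicate n false)) := by
  have hl := hL _ _ _ _ (adm_of M n)
  rw [yes_iff, yes_iff, no_iff, no_iff]
  exact ⟨hl.1 O O' h, hl.2 O O' h⟩

/-- the dummy algorithm -/
noncomputable def nul : QAlg where
  basis := Unit
  query := fun _ => none
  T := 0
  U := fun _ => 1
  unitary := fun _ => one_mem _
  init := fun _ => 1
  norm_init := by simp
  acc := ∅

theorem ac_false (m : ℕ) : Ac 0 m fun _ => false :=
  ⟨fun _ => false, .inl ⟨false, fun _ => rfl⟩, fun _ => rfl⟩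

section

variable (k : ℕ) (j : ℕ → ℕ) (U : ∀ i, QMach (j i)) (R : ℕ → List Bool → Set QAlg)

/-- the tests -/
def tst (J N : ℕ) (O : List Bool → Bool) : Prop :=
  if J % 3 = 0 then ∀ r, N = nod (2 ^ r) (k + j (J / 3)) →
    (U (J / 3)).Right O (hlang (k + j (J / 3)) O) (List.replicate (2 ^ r) false)
  else if J % 3 = 1 then ∀ r a, j (J / 3) = a + 1 → N = nod (3 * 2 ^ r) (k + a) →
    (U (J / 3)).Right O (hlang (k + a) O)ᶜ (List.replicate (3 * 2 ^ r) false)
  else ∀ r, N = nod (3 * 2 ^ r) k →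
    PCorrect (R (J / 3) (List.replicate (3 * 2 ^ r) false)) O (hlang k O)ᶜ
      (List.replicate (3 * 2 ^ r) false)

/-- the sets of sections -/
def sst (J : ℕ) : Set ℕ :=
  if J % 3 = 0 then {N | ∃ r, N = nod (2 ^ r) (k + j (J / 3))}
  else if J % 3 = 1 then {N | ∃ r a, j (J / 3) = a + 1 ∧ N = nod (3 * 2 ^ r) (k + a)}
  else {N | ∃ r, N = nod (3 * 2 ^ r) k}

end

theorem right_loc (hL : T_LCY) (hS : T_SCX) {j : ℕ} (M : QMach j) (n l N c : ℕ)
    (hN : N = nod n l) (h1 : 1 ≤ n) (hc : M.c ≤ c) (hc1 : 1 ≤ c) (O O' : List Bool → Bool)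
    (h : ∀ w : List Bool, w.length ≤ N ^ c + c → O w = O' w) :
    (M.Right O (hlang l O) (List.replicate n false) →
      M.Right O' (hlang l O') (List.replicate n false)) ∧
    (M.Right O (hlang l O)ᶜ (List.replicate n false) →
      M.Right O' (hlang l O')ᶜ (List.replicate n false)) := by
  have hnN : n ≤ N := hN ▸ le_nod n l
  have hN1 : 1 ≤ N := h1.trans hnN
  have hl := hlang_loc hS l n O O' (fun w hw => h w (hw.trans (by
    rw [← hN]
    exact add_le_add (Nat.le_self_pow (by omega) N) hc1)))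
  have hm := loc_of hL M n O O' (fun w hw => h w (hw.trans (pow_mono_cost hnN hN1 hc)))
  refine ⟨fun hr => ⟨fun hx => hm.1 (hr.1 (hl.2 hx)), fun hx => hm.2 (hr.2 fun hy => hx (hl.1 hy))⟩,
    fun hr => ⟨fun hx => hm.1 (hr.1 fun hy => hx (hl.1 hy)), fun hx => hm.2 (hr.2 fun hy => hx
      fun hz => hy (hl.2 hz))⟩⟩

theorem tst_loc (hL : T_LCY) (hS : T_SCX) (hLOC : Pool.Agent.H70.RC.T_LOC) (k : ℕ) (j : ℕ → ℕ)
    (U : ∀ i, QMach (j i)) (R : ℕ → List Bool → Set QAlg)
    (hR : ∀ i, ∃ (c C : ℕ) (ε : ℝ), 0 < ε ∧ ∀ x : List Bool, ∀ A ∈ R i x,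
      A.Short (x.length ^ c + c) ∧ (A.T : ℝ) ≤ C * 2 ^ ((1 / 2 - ε) * x.length)) (J : ℕ) :
    ∃ c, ∀ N O O', (∀ w : List Bool, w.length ≤ N ^ c + c → O w = O' w) →
      tst k j U R J N O → tst k j U R J N O' := by
  obtain ⟨cR, CR, εR, _, hR'⟩ := hR (J / 3)
  refine ⟨max (max (U (J / 3)).c cR) 1, fun N O O' hO ht => ?_⟩
  have hcU : (U (J / 3)).c ≤ max (max (U (J / 3)).c cR) 1 :=
    (le_max_left _ _).trans (le_max_left _ _)
  have hcR : cR ≤ max (max (U (J / 3)).c cR) 1 := (le_max_right _ _).trans (le_max_left _ _)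
  have hc1 : 1 ≤ max (max (U (J / 3)).c cR) 1 := le_max_right _ _
  unfold tst at ht ⊢
  split_ifs at ht ⊢ with h0 h1
  · intro r hN
    exact (right_loc hL hS (U (J / 3)) (2 ^ r) _ N _ hN (Nat.one_le_two_pow) hcU hc1 O O' hO).1
      (ht r hN)
  · intro r a ha hN
    exact (right_loc hL hS (U (J / 3)) (3 * 2 ^ r) _ N _ hN (Nat.mul_pos (by norm_num)
      (Nat.two_pow_pos r)) hcU hc1 O O' hO).2 (ht r a ha hN)
  · intro r hN
    have h3 : 1 ≤ 3 * 2 ^ r := Nat.mul_pos (by norm_num) (Nat.two_pow_pos r)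
    have hnN : 3 * 2 ^ r ≤ N := hN ▸ le_nod _ k
    have hN1 : 1 ≤ N := h3.trans hnN
    have hl := hlang_loc hS k (3 * 2 ^ r) O O' (fun w hw => hO w (hw.trans (by
      rw [← hN]
      exact add_le_add (Nat.le_self_pow (by omega) N) hc1)))
    have hp : ∀ A ∈ R (J / 3) (List.replicate (3 * 2 ^ r) false), A.prob O = A.prob O' := by
      intro A hA
      have hs := (hR' _ A hA).1
      rw [List.length_replicate] at hs
      exact (hLOC A).2 _ O O' hs fun w hw => hO w (hw.trans (pow_mono_cost hnN hN1 hcR))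
    obtain ⟨t1, t2⟩ := ht r hN
    refine ⟨fun hx => ?_, fun hx A hA => ?_⟩
    · obtain ⟨A, hA, hp'⟩ := t1 fun hy => hx (hl.1 hy)
      exact ⟨A, hA, hp A hA ▸ hp'⟩
    · rw [← hp A hA]
      exact t2 (fun hy => hx fun hz => hy (hl.2 hz)) A hA

/-- a number `2 ^ r` which is large -/
theorem exists_pow (m a : ℕ) (ha : 1 ≤ a) : ∃ r, m ≤ a * 2 ^ r :=
  ⟨m, (Nat.lt_two_pow_self).le.trans (Nat.le_mul_of_pos_left _ ha)⟩

/-- The common part of the three contradictions. -/
theorem core (hAMN : T_AMN) (k l : ℕ) (a : ℕ) (ha : 1 ≤ a) (c0 : ℕ) (τ : ℕ → (List Bool → Bool) → Prop)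
    (S : Set ℕ) (τ' : ℕ → (List Bool → Bool) → Prop)
    (f' : (n : ℕ) → ((Fin (nod n l) → Bool) → Bool) → Option Bool)
    (hS : ∀ r, nod (a * 2 ^ r) l ∈ S)
    (hτ : ∀ r O, τ (nod (a * 2 ^ r) l) O → τ' (a * 2 ^ r) O)
    (hf : ∀ r, fAll (nod (a * 2 ^ r) l) = f' (a * 2 ^ r))
    (hno : ∀ c, ∀ᶠ n : ℕ in atTop, ∀ mw m : ℕ, mw ≤ m → m ≤ n ^ c → mw = n ^ c0 + c0 →
      ¬ SimK k (nod n l) m (τ' n) (f' n)) :
    ¬ ∃ c, ∀ᶠ N in atTop, N ∈ S → SimK k N (N ^ c + c) (τ N) (fAll N) := by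
  rintro ⟨c, hc⟩
  rw [eventually_atTop] at hc
  obtain ⟨N0, hN0⟩ := hc
  set c2 := max c c0 with hc2
  have hno' := hno (2 * c2 + 1)
  rw [eventually_atTop] at hno'
  obtain ⟨n0, hn0⟩ := hno'
  obtain ⟨r, hr⟩ := exists_pow (max (max N0 n0) (max (2 ^ (l + 1)) (c2 + 2))) a ha
  set n := a * 2 ^ r with hn
  have hN : N0 ≤ nod n l := (((le_max_left _ _).trans (le_max_left _ _)).trans hr).trans (le_nod n l)
  have h1 : n0 ≤ n := ((le_max_right _ _).trans (le_max_left _ _)).trans hr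
  have h2 : 2 ^ (l + 1) ≤ n := ((le_max_left _ _).trans (le_max_right _ _)).trans hr
  have h3 : c2 + 2 ≤ n := ((le_max_right _ _).trans (le_max_right _ _)).trans hr
  have hN1 : 1 ≤ nod n l := (by omega : 1 ≤ n).trans (le_nod n l)
  have hs := hN0 (nod n l) hN (hS r)
  have hs' : SimK k (nod n l) (nod n l ^ c2 + c2) (τ' n) (f' n) :=
    simK_mono hAMN (pow_mono_cost le_rfl hN1 (le_max_left _ _)) (hτ r) (hf r) hs
  exact hn0 n h1 (n ^ c0 + c0) _ (pow_mono_cost (le_nod n l) hN1 (le_max_right _ _))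
    (cost_le l c2 n h2 h3) rfl hs'

theorem pf_FIN (hFNU : T_FNU) (hFAL : T_FAL) (hAVJ : T_AVJ) (hAVF : T_AVF) (hAVR : T_AVR)
    (hAMN : T_AMN) (hL : T_LCY) (hS : T_SCX) (hLOC : Pool.Agent.H70.RC.T_LOC) : T_FIN := by
  intro k hk V j U R hR
  obtain ⟨hne, hf1, hf3, hone⟩ := hFAL
  obtain ⟨O, hsec, hyes, hsim, _, _, _⟩ := hFNU (fun _ => k) (fun _ => hk) fAll hne V
    (tst k j U R) (fun _ _ => nul) (fun _ _ => ∅) (fun _ _ _ => false) (sst k j)
    (tst_loc hL hS hLOC k j U R hR)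
    (fun _ => ⟨0, fun n => ⟨Nat.zero_le _, fun i w h => by cases h⟩⟩)
    (fun _ => ⟨0, fun n A hA => absurd hA (Set.notMem_empty _)⟩)
    (fun _ => ⟨0, 0, fun n => ac_false _⟩)
  refine ⟨O, hyes, hone O hsec, fun i m => ?_, fun i a m hja => ?_, fun i m => ?_⟩
  · by_contra hcon
    push Not at hcon
    have hd : 3 * i % 3 = 0 := by omega
    have hq : 3 * i / 3 = i := by omega
    have hev : ∀ᶠ N in atTop, N ∈ sst k j (3 * i) → tst k j U R (3 * i) N O := by
      filter_upwards [eventually_ge_atTop (2 ^ (k + j i + 1) * m)] with N hN hNS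
      unfold tst
      rw [if_pos hd, hq]
      intro r hr
      refine hcon (2 ^ r) ?_ ⟨r, rfl⟩
      by_contra hlt
      push Not at hlt
      have h1 : N ≤ 2 ^ (k + j i + 1) * 2 ^ r := hr ▸ nod_le _ _
      have h2 : 2 ^ (k + j i + 1) * 2 ^ r < 2 ^ (k + j i + 1) * m :=
        Nat.mul_lt_mul_of_pos_left hlt (Nat.two_pow_pos _)
      omega
    obtain ⟨_, c, hc⟩ := hsim (3 * i) hev
    refine core hAMN k (k + j i) 1 le_rfl (U i).c (tst k j U R (3 * i)) (sst k j (3 * i))
      (fun n O => (List.replicate n false ∈ hlang (k + j i) O →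
          Yes (n ^ (U i).c + (U i).c) (j i) ((U i).alg (List.replicate n false)) O) ∧
        (List.replicate n false ∉ hlang (k + j i) O →
          No (n ^ (U i).c + (U i).c) (j i) ((U i).alg (List.replicate n false)) O))
      (fun n => fX (k + j i) n (nod n (k + j i))) (fun r => ?_) (fun r O' ht => ?_) (fun r => ?_)
      (fun c' => ?_) ⟨c, hc⟩
    · unfold sst
      rw [if_pos hd, hq, one_mul]
      exact ⟨r, rfl⟩
    · unfold tst at ht
      rw [if_pos hd, hq, one_mul] at ht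
      obtain ⟨t1, t2⟩ := ht r rfl
      rw [one_mul]
      exact ⟨fun hx => (yes_iff _ _ _).1 (t1 hx), fun hx => (no_iff _ _ _).1 (t2 hx)⟩
    · rw [one_mul]
      exact hf1 (k + j i) r (by omega)
    · filter_upwards [hAVJ k (j i) c' (U i).C (U i).ε hk (U i).ε_pos] with n hn mw m' hmw hm' he
      subst he
      exact hn _ m' _ hmw hm' (adm_of (U i) n)
  · by_contra hcon
    push Not at hcon
    have hd0 : ¬ (3 * i + 1) % 3 = 0 := by omega
    have hd : (3 * i + 1) % 3 = 1 := by omega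
    have hq : (3 * i + 1) / 3 = i := by omega
    have hev : ∀ᶠ N in atTop, N ∈ sst k j (3 * i + 1) → tst k j U R (3 * i + 1) N O := by
      filter_upwards [eventually_ge_atTop (2 ^ (k + a + 1) * m)] with N hN hNS
      unfold tst
      rw [if_neg hd0, if_pos hd, hq]
      intro r a' ha' hr
      obtain rfl : a' = a := by omega
      refine hcon (3 * 2 ^ r) ?_
      by_contra hlt
      push Not at hlt
      have h1 : N ≤ 2 ^ (k + a' + 1) * (3 * 2 ^ r) := hr ▸ nod_le _ _
      have h2 : 2 ^ (k + a' + 1) * (3 * 2 ^ r) < 2 ^ (k + a' + 1) * m :=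
        Nat.mul_lt_mul_of_pos_left hlt (Nat.two_pow_pos _)
      omega
    obtain ⟨_, c, hc⟩ := hsim (3 * i + 1) hev
    refine core hAMN k (k + a) 3 (by norm_num) (U i).c (tst k j U R (3 * i + 1))
      (sst k j (3 * i + 1))
      (fun n O => (List.replicate n false ∉ hlang (k + a) O →
          Yes (n ^ (U i).c + (U i).c) (a + 1) ((U i).alg (List.replicate n false)) O) ∧
        (List.replicate n false ∈ hlang (k + a) O →
          No (n ^ (U i).c + (U i).c) (a + 1) ((U i).alg (List.replicate n false)) O))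
      (fun n => fR (k + a) n (nod n (k + a))) (fun r => ?_) (fun r O' ht => ?_) (fun r => ?_)
      (fun c' => ?_) ⟨c, hc⟩
    · unfold sst
      rw [if_neg hd0, if_pos hd, hq]
      exact ⟨r, a, hja, rfl⟩
    · unfold tst at ht
      rw [if_neg hd0, if_pos hd, hq] at ht
      obtain ⟨t1, t2⟩ := ht r a hja rfl
      rw [← hja]
      exact ⟨fun hx => (yes_iff _ _ _).1 (t1 hx),
        fun hx => (no_iff _ _ _).1 (t2 fun hy => hy hx)⟩
    · exact hf3 (k + a) r (by omega)
    · filter_upwards [hAVF k a c' (U i).C (U i).ε hk (U i).ε_pos] with n hn mw m' hmw hm' he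
      subst he
      refine hn _ m' _ hmw hm' ?_
      rw [← hja]
      exact adm_of (U i) n
  · by_contra hcon
    push Not at hcon
    have hd0 : ¬ (3 * i + 2) % 3 = 0 := by omega
    have hd : ¬ (3 * i + 2) % 3 = 1 := by omega
    have hq : (3 * i + 2) / 3 = i := by omega
    have hev : ∀ᶠ N in atTop, N ∈ sst k j (3 * i + 2) → tst k j U R (3 * i + 2) N O := by
      filter_upwards [eventually_ge_atTop (2 ^ (k + 1) * m)] with N hN hNS
      unfold tst
      rw [if_neg hd0, if_neg hd, hq]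
      intro r hr
      refine hcon (3 * 2 ^ r) ?_
      by_contra hlt
      push Not at hlt
      have h1 : N ≤ 2 ^ (k + 1) * (3 * 2 ^ r) := hr ▸ nod_le _ _
      have h2 : 2 ^ (k + 1) * (3 * 2 ^ r) < 2 ^ (k + 1) * m :=
        Nat.mul_lt_mul_of_pos_left hlt (Nat.two_pow_pos _)
      omega
    obtain ⟨_, c, hc⟩ := hsim (3 * i + 2) hev
    obtain ⟨cR, CR, εR, hεR, hR'⟩ := hR i
    refine core hAMN k k 3 (by norm_num) cR (tst k j U R (3 * i + 2))
      (sst k j (3 * i + 2))
      (fun n O => (List.replicate n false ∉ hlang k O →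
          YesP (R i (List.replicate n false)) O) ∧
        (List.replicate n false ∈ hlang k O → NoP (R i (List.replicate n false)) O))
      (fun n => fR k n (nod n k)) (fun r => ?_) (fun r O' ht => ?_) (fun r => ?_)
      (fun c' => ?_) ⟨c, hc⟩
    · unfold sst
      rw [if_neg hd0, if_neg hd]
      exact ⟨r, rfl⟩
    · unfold tst at ht
      rw [if_neg hd0, if_neg hd, hq] at ht
      obtain ⟨t1, t2⟩ := ht r rfl
      exact ⟨fun hx => t1 hx, fun hx => t2 fun hy => hy hx⟩
    · exact hf3 k r hk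
    · filter_upwards [hAVR k c' CR εR hk hεR] with n hn mw m' hmw hm' he
      subst he
      refine hn _ m' _ hmw hm' fun A hA => ?_
      have h := hR' _ A hA
      rw [List.length_replicate] at h
      exact h

end Pool.Agent.H68.QC
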