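import Pool.Agent.H69.QC.TJF

/-!
# The quantum classical hierarchy relative to an oracle with Σ_k in EQP: module TJJ
-/

set_option autoImplicit false

namespace Pool.Agent.H68.QCX

open Finset Filter Pool.Agent.H6.NB Pool.Agent.H70.OQ Pool.Agent.H70.RK Pool.Agent.H68.QC
open Pool.Agent.H69.QC

/-- TJJ: the table lemma for the quantum classical hierarchy, at least one quantifier. -/
theorem pf_TJJ (hSTP : T_STP) (hBSJ : T_BSJ) (hLCY : T_LCY) (hPAJ : T_PAJ) (hCDN : T_CDN) :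
    T_TJJ := by
  intro k i0 c C ε hε
  filter_upwards [hPAJ k i0 c C ε hε] with n hn
  intro mw m alg e hmw hm hmn hAdm he
  obtain ⟨t, w, D, K, g, q2, htk, ht, hw, hg, hD, hq2, hq2', hDq, hDK, hK, hsum⟩ := hn m hm hmn
  refine ⟨K, hK, ?_⟩
  have hDR : (1 : ℝ) ≤ D := by exact_mod_cast hD
  have hq' : (0 : ℝ) < 1 / (64 * D) := by positivity
  have hq'1 : (1 : ℝ) / (64 * D) ≤ 1 := by
    rw [div_le_one (by positivity)]
    linarith
  have hT0 : (0 : ℝ) ≤ C * 2 ^ ((1 / 2 - ε) * n) := by positivity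
  have hbase := hBSJ (Fin n → Bool) (Ys n) mw m (t 0) D (2 ^ n) (2 ^ (n - g)) K i0
    (C * 2 ^ ((1 / 2 - ε) * n)) q2 (1 / (64 * D)) alg hmw hAdm hT0 (ht 0 (Nat.zero_le k)) hD hq2
    hq2' hDq hq' (by rw [mul_one_div_cancel (by positivity)]) hDK
    (fun i' _ => by rw [(hCDN n i').1, (hCDN n i').2]) Nat.one_le_two_pow
  obtain ⟨hY, hN⟩ := hLCY mw (i0 + 1) _ alg hAdm
  have h3 : 0 ≤ errT (Fin n → Bool) (Ys n) (2 ^ (m + 1)) D (2 ^ n) (1 / (64 * D)) i0 :=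
    errT_nonneg hq'.le hq'1
  have hE0 : 0 ≤ 2 ^ ((m + 1) * (i0 + 1)) * (4 / 2 ^ D) +
      (Fintype.card (Nn n i0) : ℝ) * Fintype.card (Nn n i0) * (1 - q2) ^ 2 ^ (n - g) +
      errT (Fin n → Bool) (Ys n) (2 ^ (m + 1)) D (2 ^ n) (1 / (64 * D)) i0 := by
    have h2 : (0 : ℝ) ≤ 1 - q2 := by linarith
    positivity
  refine fin hSTP hCDN t w (fun s => s) (fun _ => rfl) hg k ht hw (loc_mono hY hmw) (loc_mono hN hmw) hE0
    hbase ?_ (by omega) ?_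
  · refine le_trans ?_ hsum
    rw [(hCDN n i0).1]
    push_cast
    have h4 : (2 : ℝ) ^ ((m + 1) * (i0 + 1)) ≤ 2 ^ ((m + 1) * (i0 + 2)) :=
      pow_le_pow_right₀ (by norm_num) (Nat.mul_le_mul_left _ (by omega))
    have h5 : (2 : ℝ) ^ ((m + 1) * (i0 + 1)) * (4 / 2 ^ D) ≤
        2 ^ ((m + 1) * (i0 + 2)) * (4 / 2 ^ D) := mul_le_mul_of_nonneg_right h4 (by positivity)
    have h6 : errT (Fin n → Bool) (Ys n) (2 ^ (m + 1)) D (2 ^ n) (1 / (64 * D)) i0 ≤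
        2 ^ (m + 1) * errT (Fin n → Bool) (Ys n) (2 ^ (m + 1)) D (2 ^ n) (1 / (64 * D)) i0 :=
      le_mul_of_one_le_left h3 (one_le_pow₀ (by norm_num))
    nlinarith [h5, h6]
  · exact ⟨e, fun w => by rw [htk]; exact he w, fun _ => Iff.rfl, fun _ => Iff.rfl⟩

end Pool.Agent.H68.QCX
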