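import Pool.Agent.H68.QC.Targets
import Pool.Agent.H78.OY.Stmt

/-!
# The quantum classical hierarchy relative to an oracle with Σ_k in EQP: the final theorem
-/

set_option autoImplicit false

namespace Pool.Agent.H68.QC

open Finset Filter Pool.Agent.H6.NB Pool.Agent.H70.OQ Pool.Agent.H70.RK Pool.Agent.H70.RC
open Pool.Agent.H70.RW (SimK yesW inw)
open Pool.Agent.H78.OY (PCorrect)

/-- The length of the words of section number `N` and the level: `N = (2 ^ (l + 1) - 1) * (a * 2 ^ r)`. -/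
def Cod (a l r N : ℕ) : Prop := 1 ≤ l ∧ N = nod (a * 2 ^ r) l

open Classical in
/-- The partial functions of all sections. -/
noncomputable def fAll (N : ℕ) (X : (Fin N → Bool) → Bool) : Option Bool :=
  if h : ∃ p : ℕ × ℕ, Cod 1 p.1 p.2 N then fX h.choose.1 (2 ^ h.choose.2) N X
  else if h : ∃ p : ℕ × ℕ, Cod 3 p.1 p.2 N then fR h.choose.1 (3 * 2 ^ h.choose.2) N X
  else some true

/-- FAL: the functions of the sections. -/
def T_FAL : Prop := (∀ N, ∃ X, fAll N X ≠ none) ∧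
  (∀ l r, 1 ≤ l → fAll (nod (2 ^ r) l) = fX l (2 ^ r) (nod (2 ^ r) l)) ∧
  (∀ l r, 1 ≤ l → fAll (nod (3 * 2 ^ r) l) = fR l (3 * 2 ^ r) (nod (3 * 2 ^ r) l)) ∧
  ∀ O : List Bool → Bool, (∀ N, fAll N (sec O N) ≠ none) → ∀ l, 1 ≤ l → OneSpecialP l O

/-- FIN: the final theorem. -/
def T_FIN : Prop := ∀ k : ℕ, 1 ≤ k → ∀ (V : ℕ → Machine k) (j : ℕ → ℕ) (U : ∀ i, QMach (j i))
  (R : ℕ → List Bool → Set QAlg),
  (∀ i, ∃ (c C : ℕ) (ε : ℝ), 0 < ε ∧ ∀ x : List Bool, ∀ A ∈ R i x, A.Short (x.length ^ c + c) ∧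
    (A.T : ℝ) ≤ C * 2 ^ ((1 / 2 - ε) * x.length)) →
  ∃ O : List Bool → Bool,
    (∀ i x, (x ∈ (V i).lang O → yesW O (inw (V i).c i x) = 1) ∧
      (x ∉ (V i).lang O → yesW O (inw (V i).c i x) = 0)) ∧
    (∀ l, 1 ≤ l → OneSpecialP l O) ∧
    (∀ i m, ∃ n ≥ m, (∃ r, n = 2 ^ r) ∧
      ¬ (U i).Right O (hlang (k + j i) O) (List.replicate n false)) ∧
    (∀ i a m, j i = a + 1 → ∃ n ≥ m,
      ¬ (U i).Right O (hlang (k + a) O)ᶜ (List.replicate n false)) ∧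
    ∀ i m, ∃ n ≥ m, ¬ PCorrect (R i (List.replicate n false)) O (hlang k O)ᶜ (List.replicate n false)

end Pool.Agent.H68.QC
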